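import Pool.Agent.Helper79.PN.Lem

set_option autoImplicit false

/-!
BU2: budget of the vertices of index 2.
-/

open scoped Classical

namespace Pool.Agent.Helper38.PN

open Pool.Agent.Helper79.PN

/-- the two steps `e (m + 1)` and `e (m - 1)` -/
theorem two {P : Pen} (K : Lam) (m : ZMod 5) :
    P.h (K + e (m + 1) + e (m - 1)) m = P.h K m + (g - 1) ∧
    P.h (K + e (m + 1) + e (m - 1)) (m + 1) = P.h K (m + 1) + 1 - g / 2 ∧
    P.h (K + e (m + 1) + e (m - 1)) (m - 1) = P.h K (m - 1) + 1 - g / 2 ∧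
    P.h (K + e (m + 1) + e (m - 1)) (m + 2) = P.h K (m + 2) - 1 / 2 ∧
    P.h (K + e (m + 1) + e (m - 1)) (m - 2) = P.h K (m - 2) - 1 / 2 := by
  obtain ⟨a0, a1, a4, a2, a3⟩ := P.stp4 (K + e (m + 1)) m
  obtain ⟨b0, b1, b4, b2, b3⟩ := P.stp1 K m
  refine ⟨?_, ?_, ?_, ?_, ?_⟩
  · rw [a0, b0]; ring
  · rw [a1, b1]
  · rw [a4, b4]; ring
  · rw [a2, b2]; ring
  · rw [a3, b3]; ring

theorem pa {P : Pen} {K : Lam} {m : ZMod 5} (h : X1 P (K - e (m - 2)) m) :
    P.h K (m + 1) < -1 / 2 := by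
  obtain ⟨-, -, -, h1, -⟩ := h
  rw [P.h_sub_add, (P.stp3 K m).2.1] at h1
  linarith

theorem pb {P : Pen} {K : Lam} {m : ZMod 5} (h : X1 P (K - e (m + 2)) m) :
    P.h K (m - 1) < -1 / 2 := by
  obtain ⟨-, -, -, -, h1⟩ := h
  rw [P.h_sub_add, (P.stp2 K m).2.2.1] at h1
  linarith

theorem qa {P : Pen} {K : Lam} {m : ZMod 5} (h : X1 P.mir (-(K + e (m + 1) + e (m - 1))) m) :
    P.h K m < -(3 * (g - 1)) / 2 := by
  obtain ⟨-, -, h1, -, -⟩ := h
  rw [Pen.mir_h, neg_neg, (two K m).1] at h1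
  linarith

theorem ra {P : Pen} {K : Lam} (m : ZMod 5) (h : T1 P.mir (-(K + e (m + 1) + e (m - 1))) m) :
    ∀ j, -1 / 2 < P.h K j := by
  obtain ⟨hn, hv, h2, h3⟩ := h
  rw [Pen.mir_n, neg_neg] at hn
  rw [inv_mir, inv4 (by omega)] at hv
  obtain ⟨c0, c1, c4, c2, c3⟩ := two (P := P) K m
  rw [Pen.mir_h, neg_neg, c2] at h2
  rw [Pen.mir_h, neg_neg, c3] at h3
  have v0 := hv m
  have v1 := hv (m + 1)
  have v4 := hv (m - 1)
  rw [c0] at v0
  rw [c1] at v1
  rw [c4] at v4
  have g1 := g_gt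
  have g2 := g_lt
  have gs := g_sq
  obtain ⟨a1, a2, a3, a4, a5⟩ := P.rel0 K m
  obtain ⟨b1, b2, b3, b4, b5⟩ := P.relg K m
  have key : ∀ x : ℝ, -(g / 2) < g * x → -1 / 2 < x := by
    intro x hx
    nlinarith
  have r0 := P.rel2 K m
  have r1 := P.rel2 K (m + 1)
  have r4 := P.rel2 K (m - 1)
  have r2 := P.rel2 K (m + 2)
  have r3 := P.rel2 K (m - 2)
  rw [p1p2, p1m2] at r1
  rw [m1p2, m1m2] at r4
  rw [p2p2, p2m2] at r2
  rw [m2p2, m2m2] at r3
  refine all5 m ?_ ?_ ?_ ?_ ?_ <;> refine key _ ?_ <;> linarith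

theorem ta {P : Pen} {K : Lam} (m : ZMod 5) (h : T1 P (K - e m) m) :
    ∀ j, -1 / 2 < P.h K j := by
  obtain ⟨hn, hv, h2, h3⟩ := h
  rw [inv1 hn] at hv
  obtain ⟨c0, c1, c4, c2, c3⟩ := P.stp K m
  rw [P.h_sub_add, c2] at h2
  rw [P.h_sub_add, c3] at h3
  have v0 := hv m
  have v1 := hv (m + 1)
  have v4 := hv (m - 1)
  rw [P.h_sub_add, c0] at v0
  rw [P.h_sub_add, c1] at v1
  rw [P.h_sub_add, c4] at v4
  have g1 := g_gt
  have g2 := g_lt
  refine all5 m ?_ ?_ ?_ ?_ ?_ <;> linarith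

theorem st_BU2 : ST_BU2 := by
  intro P K p q r t hn hv hT hp hq hr ht ht1
  have g1 := g_gt
  have g2 := g_lt
  have w := w2 hn hv
  rw [isT_2 hn] at hT
  push Not at hT
  have hdg : dg P K = ∑ m, ind (InV P (K + e m)) + ∑ m, ind (InV P (K - e m)) := by
    unfold dg adj
    rw [Finset.sum_add_distrib]
  have m1 : 5 * r ≤ max (5 * r) (max (2 * p) (p + q)) := le_max_left _ _
  have m2 : 2 * p ≤ max (5 * r) (max (2 * p) (p + q)) :=
    le_trans (le_max_left _ _) (le_max_right _ _)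
  have m3 : p + q ≤ max (5 * r) (max (2 * p) (p + q)) :=
    le_trans (le_max_right _ _) (le_max_right _ _)
  by_cases hA : ∀ j, -1 / 2 < P.h K j
  · -- all components are large
    have e1 : ∑ m, (ind (X1 P (K - e (m - 2)) m) + ind (X1 P (K - e (m + 2)) m)) = 0 := by
      refine Finset.sum_eq_zero fun m _ => ?_
      rw [ind_false fun h => by have := pa h; linarith [hA (m + 1)],
        ind_false fun h => by have := pb h; linarith [hA (m - 1)], add_zero]
    have e2 : ∑ m, ind (X1 P.mir (-(K + e (m + 1) + e (m - 1))) m) = 0 := by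
      refine Finset.sum_eq_zero fun m _ => ?_
      rw [ind_false fun h => by have := qa h; linarith [hA m]]
    have e3 : ∑ m, ind (T1 P.mir (-(K + e (m + 1) + e (m - 1))) m) ≤ 5 := by
      rw [sum5 0]
      linarith [ind_le_one (T1 P.mir (-(K + e ((0 : ZMod 5) + 1) + e (0 - 1))) 0),
        ind_le_one (T1 P.mir (-(K + e ((0 : ZMod 5) + 1 + 1) + e (0 + 1 - 1))) (0 + 1)),
        ind_le_one (T1 P.mir (-(K + e ((0 : ZMod 5) - 1 + 1) + e (0 - 1 - 1))) (0 - 1)),
        ind_le_one (T1 P.mir (-(K + e ((0 : ZMod 5) + 2 + 1) + e (0 + 2 - 1))) (0 + 2)),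
        ind_le_one (T1 P.mir (-(K + e ((0 : ZMod 5) - 2 + 1) + e (0 - 2 - 1))) (0 - 2))]
    have e4 : ∑ m, ind (T1 P (K - e m) m) ≤ ∑ m, ind (InV P (K - e m)) := by
      refine Finset.sum_le_sum fun m _ => ?_
      by_cases h : T1 P (K - e m) m
      · rw [ind_true h, ind_true h.2.1]
      · rw [ind_false h]
        exact ind_nonneg _
    have e4' : 0 ≤ ∑ m, ind (T1 P (K - e m) m) := Finset.sum_nonneg fun m _ => ind_nonneg _
    have e5 : ∑ m, ind (InV P (K + e m)) = 5 := by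
      have h : ∀ m, ind (InV P (K + e m)) = 1 := by
        intro m
        refine ind_true ?_
        rw [inv3 (by rw [P.n_add, hn]; rfl)]
        obtain ⟨s0, s1, s4, s2, s3⟩ := P.stp K m
        refine all5 m ?_ ?_ ?_ ?_ ?_
        · rw [s0]; linarith [hA m]
        · rw [s1]; linarith [hA (m + 1)]
        · rw [s4]; linarith [hA (m - 1)]
        · rw [s2]; linarith [hA (m + 2)]
        · rw [s3]; linarith [hA (m - 2)]
      rw [Finset.sum_congr rfl fun m _ => h m, Finset.sum_const, Finset.card_univ, ZMod.card]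
      norm_num
    rw [e1, e2, hdg, e5]
    have e6 : r * ∑ m, ind (T1 P.mir (-(K + e (m + 1) + e (m - 1))) m) ≤ r * 5 :=
      mul_le_mul_of_nonneg_left e3 hr
    have e7 : t * ∑ m, ind (T1 P (K - e m) m) ≤ 1 * ∑ m, ind (T1 P (K - e m) m) :=
      mul_le_mul_of_nonneg_right ht1 e4'
    linarith
  · push Not at hA
    obtain ⟨i, hi⟩ := hA
    have hi' : P.h K i < -1 / 2 := lt_of_le_of_ne hi (nsb hn i)
    obtain ⟨a1, a2, a3, a4, a5⟩ := P.rel0 K i
    obtain ⟨b1, b2, b3, b4, b5⟩ := P.relg K i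
    have r0 := P.rel2 K i
    obtain ⟨v0, v0a, v0b, v0c, v0d, v0e⟩ := w i
    obtain ⟨v1, v1a, v1b, v1c, v1d, v1e⟩ := w (i + 1)
    obtain ⟨v4, v4a, v4b, v4c, v4d, v4e⟩ := w (i - 1)
    obtain ⟨v2, v2a, v2b, v2c, v2d, v2e⟩ := w (i + 2)
    obtain ⟨v3, v3a, v3b, v3c, v3d, v3e⟩ := w (i - 2)
    have x1 : -1 / 2 < P.h K (i + 1) := by
      by_contra h
      push Not at h
      have h' := lt_of_le_of_ne h (nsb hn (i + 1))
      refine hT (i - 2) ⟨hn, hv, ?_, ?_⟩
      · rw [m2p2]; exact hi'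
      · rw [m2m2]; exact h'
    have x4 : -1 / 2 < P.h K (i - 1) := by
      by_contra h
      push Not at h
      have h' := lt_of_le_of_ne h (nsb hn (i - 1))
      refine hT (i + 2) ⟨hn, hv, ?_, ?_⟩
      · rw [p2p2]; exact h'
      · rw [p2m2]; exact hi'
    obtain ⟨y1a, y1⟩ := gm x1
    obtain ⟨y4a, y4⟩ := gm x4
    have x2 : (2 - g) / 2 < P.h K (i + 2) := by linarith
    have x3 : (2 - g) / 2 < P.h K (i - 2) := by linarith
    have huniq : ∀ j, P.h K j < -1 / 2 → j = i := by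
      intro j hj
      rcases cas5 i j with h | h | h | h | h
      · exact h
      all_goals
        exfalso
        rw [h] at hj
        linarith
    have e3 : ∑ m, ind (T1 P.mir (-(K + e (m + 1) + e (m - 1))) m) = 0 := by
      refine Finset.sum_eq_zero fun m _ => ind_false fun h => ?_
      have := ra m h i
      linarith
    have e4 : ∑ m, ind (T1 P (K - e m) m) = 0 := by
      refine Finset.sum_eq_zero fun m _ => ind_false fun h => ?_
      have := ta m h i
      linarith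
    have e1 : ∑ m, (ind (X1 P (K - e (m - 2)) m) + ind (X1 P (K - e (m + 2)) m)) =
        ind (X1 P (K - e (i + 2)) (i - 1)) + ind (X1 P (K - e (i - 2)) (i + 1)) := by
      rw [Finset.sum_add_distrib]
      congr 1
      · rw [Finset.sum_eq_single (i - 1)]
        · rw [m1m2]
        · intro m _ hm
          refine ind_false fun h => hm ?_
          rw [← huniq (m + 1) (pa h)]
          ring
        · intro h
          exact absurd (Finset.mem_univ _) h
      · rw [Finset.sum_eq_single (i + 1)]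
        · rw [p1p2]
        · intro m _ hm
          refine ind_false fun h => hm ?_
          rw [← huniq (m - 1) (pb h)]
          ring
        · intro h
          exact absurd (Finset.mem_univ _) h
    have e2 : ∑ m, ind (X1 P.mir (-(K + e (m + 1) + e (m - 1))) m) =
        ind (X1 P.mir (-(K + e (i + 1) + e (i - 1))) i) := by
      rw [Finset.sum_eq_single i]
      · intro m _ hm
        refine ind_false fun h => hm ?_
        refine huniq m ?_
        have := qa h
        linarith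
      · intro h
        exact absurd (Finset.mem_univ _) h
    have n3 : ∀ m, P.n (K + e m) = 3 := by
      intro m
      rw [P.n_add, hn]; rfl
    have n1 : ∀ m, P.n (K - e m) = 1 := by
      intro m
      rw [P.n_sub, hn]; rfl
    obtain ⟨s0, s1, s4, s2, s3⟩ := P.stp K i
    obtain ⟨t0, t1, t4, t2, t3⟩ := P.stp1 K i
    obtain ⟨u0, u1, u4, u2, u3⟩ := P.stp4 K i
    obtain ⟨p0, p1, p4, p2, p3⟩ := P.stp2 K i
    obtain ⟨q0, q1, q4, q2, q3⟩ := P.stp3 K i
    have d0 : InV P (K + e i) := by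
      rw [inv3 (n3 _)]
      refine all5 i ?_ ?_ ?_ ?_ ?_ <;> linarith
    have d1 : InV P (K + e (i + 1)) := by
      rw [inv3 (n3 _)]
      refine all5 i ?_ ?_ ?_ ?_ ?_ <;> linarith
    have d4 : InV P (K + e (i - 1)) := by
      rw [inv3 (n3 _)]
      refine all5 i ?_ ?_ ?_ ?_ ?_ <;> linarith
    have d2 : InV P (K - e (i + 2)) := by
      rw [inv1 (n1 _)]
      refine all5 i ?_ ?_ ?_ ?_ ?_ <;> rw [P.h_sub_add] <;> linarith
    have d3 : InV P (K - e (i - 2)) := by
      rw [inv1 (n1 _)]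
      refine all5 i ?_ ?_ ?_ ?_ ?_ <;> rw [P.h_sub_add] <;> linarith
    have hd : 5 ≤ dg P K := by
      rw [hdg, sum5 i, sum5 i, ind_true d0, ind_true d1, ind_true d4, ind_true d2, ind_true d3]
      linarith [ind_nonneg (InV P (K + e (i + 2))), ind_nonneg (InV P (K + e (i - 2))),
        ind_nonneg (InV P (K - e i)), ind_nonneg (InV P (K - e (i + 1))),
        ind_nonneg (InV P (K - e (i - 1)))]
    rw [e1, e2, e3, e4]
    by_cases hX : X1 P (K - e (i + 2)) (i - 1)
    · by_cases hY : X1 P (K - e (i - 2)) (i + 1)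
      · have hZ : ¬ X1 P.mir (-(K + e (i + 1) + e (i - 1))) i := by
          intro hZ
          have z := qa hZ
          obtain ⟨-, -, -, -, z1⟩ := hX
          obtain ⟨-, -, -, z2, -⟩ := hY
          rw [m1m1, P.h_sub_add, p3] at z1
          rw [p1p1, P.h_sub_add, q2] at z2
          obtain ⟨z3, -⟩ := gm z
          have gs := g_sq
          nlinarith
        rw [ind_true hX, ind_true hY, ind_false hZ]
        linarith
      · rw [ind_true hX, ind_false hY]
        have h3 : q * ind (X1 P.mir (-(K + e (i + 1) + e (i - 1))) i) ≤ q * 1 :=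
          mul_le_mul_of_nonneg_left (ind_le_one _) hq
        linarith
    · rw [ind_false hX]
      have h2 : p * ind (X1 P (K - e (i - 2)) (i + 1)) ≤ p * 1 :=
        mul_le_mul_of_nonneg_left (ind_le_one _) hp
      have h3 : q * ind (X1 P.mir (-(K + e (i + 1) + e (i - 1))) i) ≤ q * 1 :=
        mul_le_mul_of_nonneg_left (ind_le_one _) hq
      linarith

end Pool.Agent.Helper38.PN
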